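import Mathlib.Data.Nat.Log
import Mathlib.Algebra.MvPolynomial.Eval
import Mathlib.Algebra.MvPolynomial.Degrees
import Mathlib.Data.ZMod.Defs
import Mathlib.SetTheory.Cardinal.Finite
import Pool.Agent.Helper51.ZP.Defs

/-!
# Merlin-Arthur games with restricted last answers

Turing machines are Mathlib's multi-stack machines; `PolyTimeComputable` and `Problem.InNP` are in
`Pool.Agent.Helper81.CxDefs`, the coding `encOf` of structured data (with numbers in unary) is in
`Pool.Agent.Helper81.CxData`, `Problem.ofLanguage` is in `Pool.Agent.Helper81.Complexity`.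
-/

namespace Pool.Agent.Helper78.MG

open Pool.Agent.Helper81.CC

/-- The language `L ⊆ {0,1}^*` is in `NP`. -/
def InNP (L : Set (List Bool)) : Prop := (Problem.ofLanguage L).InNP

/-- The number of the strings of `m` coins with the property `E`. -/
noncomputable def count (m : ℕ) (E : (Fin m → Bool) → Prop) : ℕ :=
  Nat.card {r : Fin m → Bool // E r}

/-- The language `L` is in `MA`: there are a polynomial-time verifier `V (x, y, r)` and polynomials
`p`, `m` such that, with `m |x|` coins `r`, for `x ∈ L` some `y` of length at most `p |x|` is
accepted with probability at least `2 / 3`, and for `x ∉ L` every such `y` with probability at most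
`1 / 3`. -/
def InMA (L : Set (List Bool)) : Prop :=
  ∃ (V : List Bool × List Bool × List Bool → Bool) (p m : Polynomial ℕ),
    PolyTimeComputable (encOf (List Bool × List Bool × List Bool)) (encOf Bool) V ∧
    (∀ x ∈ L, ∃ y : List Bool, y.length ≤ p.eval x.length ∧
      2 * 2 ^ m.eval x.length ≤
        3 * count (m.eval x.length) fun r => V (x, y, List.ofFn r) = true) ∧
    ∀ x, x ∉ L → ∀ y : List Bool, y.length ≤ p.eval x.length →
      3 * count (m.eval x.length) (fun r => V (x, y, List.ofFn r) = true) ≤ 2 ^ m.eval x.length

/-- `S ⊆ {0,1}^m` is given by a polynomial over `F_2` of degree at most `D` in the coins, whose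
coefficients are combinations of the functions `z_1, ..., z_M` of the coins:
`S` is the set of the `r` with `∑ j, z_j(r) Q_j(r) = 1`, where the polynomials `Q_j` over `F_2` in
`m` variables have total degree at most `D`. -/
def LowDegree (D : ℕ) {m M : ℕ} (z : Fin M → (Fin m → Bool) → ZMod 2)
    (S : Set (Fin m → Bool)) : Prop :=
  ∃ Q : Fin M → MvPolynomial (Fin m) (ZMod 2), (∀ j, (Q j).totalDegree ≤ D) ∧
    ∀ r, r ∈ S ↔
      ∑ j, z j r * MvPolynomial.eval (fun i => if r i then (1 : ZMod 2) else 0) (Q j) = 1

/-- `L` is decided, with a polynomial gap, by a Merlin-Arthur-Merlin game in which Merlin's last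
answer has low-degree certificates. Merlin sends `u`, Arthur tosses `m |x|` coins `r`, Merlin
answers `y`, and wins if `W (x, u, y, r)`, a polynomial-time predicate.
For `x ∉ L` and every `u`, the probability that Merlin has a winning answer is at most
`g x / U |x|`. For `x ∈ L` there are a `u` and functions `z_1, ..., z_M` of the coins (any functions,
`M = M |x|` is polynomial) such that with probability at least `(g x + 1) / U |x|` there are an
answer `y` and a set `S` of coin strings which contains `r`, is given by a polynomial of degree at
most `c log₂ |x| + c` in the coins with coefficients from `z_1, ..., z_M` (see `LowDegree`), and such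
that `y` wins with all coin strings in `S`. -/
def LowDegreeGame (c : ℕ) (L : Set (List Bool)) : Prop :=
  ∃ (W : List Bool × List Bool × List Bool × List Bool → Bool) (g : List Bool → ℕ)
    (p m M U : Polynomial ℕ),
    PolyTimeComputable (encOf (List Bool × List Bool × List Bool × List Bool)) (encOf Bool) W ∧
    PolyTimeComputable (encOf (List Bool)) (encOf ℕ) g ∧
    (∀ x ∈ L, ∃ u : List Bool, u.length ≤ p.eval x.length ∧
      ∃ z : Fin (M.eval x.length) → (Fin (m.eval x.length) → Bool) → ZMod 2,
        (g x + 1) * 2 ^ m.eval x.length ≤ U.eval x.length *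
          count (m.eval x.length) fun r => ∃ y : List Bool, y.length ≤ p.eval x.length ∧
            ∃ S, LowDegree (c * Nat.log 2 x.length + c) z S ∧ r ∈ S ∧
              ∀ r' ∈ S, W (x, u, y, List.ofFn r') = true) ∧
    ∀ x, x ∉ L → ∀ u : List Bool, u.length ≤ p.eval x.length →
      U.eval x.length * count (m.eval x.length) (fun r =>
        ∃ y : List Bool, y.length ≤ p.eval x.length ∧ W (x, u, y, List.ofFn r) = true) ≤
          g x * 2 ^ m.eval x.length

/-- The coin with the number `j` (`false` if there is no such coin). -/
def coin {m : ℕ} (r : Fin m → Bool) (j : ℕ) : Bool := if h : j < m then r ⟨j, h⟩ else false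

/-- Arthur accepts the answer `y`: he reads some coins one after the other, adaptively. If `a` is
the list of the bits read so far, the number `act (x, u, y, a)` says what he does next: `0` reject,
`1` accept, `j + 2` read the coin `j`. -/
def Wins (act : List Bool × List Bool × List Bool × List Bool → ℕ) (x u y : List Bool) {m : ℕ}
    (r : Fin m → Bool) : Prop :=
  ∃ a : List Bool, (∀ k, ∀ h : k < a.length, 2 ≤ act (x, u, y, a.take k) ∧
    a[k] = coin r (act (x, u, y, a.take k) - 2)) ∧ act (x, u, y, a) = 1

/-- `L` is decided, with gap `1 / (log₂ |x| + 2) ^ c`, by a Merlin-Arthur-Merlin game in which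
Arthur reads at most `c log₂ |x| + c` of his coins. Merlin sends `u`, Arthur tosses `m |x|` coins
`r`, Merlin (who sees all coins) answers `y`, and then Arthur reads a few coins and accepts or
rejects. -/
def FewCoinsGame (c : ℕ) (L : Set (List Bool)) : Prop :=
  ∃ (act : List Bool × List Bool × List Bool × List Bool → ℕ) (g : List Bool → ℕ)
    (p m : Polynomial ℕ),
    PolyTimeComputable (encOf (List Bool × List Bool × List Bool × List Bool)) (encOf ℕ) act ∧
    PolyTimeComputable (encOf (List Bool)) (encOf ℕ) g ∧
    (∀ x u y a : List Bool, (∀ k < a.length, 2 ≤ act (x, u, y, a.take k)) →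
      a.length ≤ c * Nat.log 2 x.length + c) ∧
    (∀ x ∈ L, ∃ u : List Bool, u.length ≤ p.eval x.length ∧
      (g x + 1) * 2 ^ m.eval x.length ≤ (Nat.log 2 x.length + 2) ^ c *
        count (m.eval x.length) fun r =>
          ∃ y : List Bool, y.length ≤ p.eval x.length ∧ Wins act x u y r) ∧
    ∀ x, x ∉ L → ∀ u : List Bool, u.length ≤ p.eval x.length →
      (Nat.log 2 x.length + 2) ^ c * count (m.eval x.length) (fun r =>
        ∃ y : List Bool, y.length ≤ p.eval x.length ∧ Wins act x u y r) ≤ g x * 2 ^ m.eval x.length

end Pool.Agent.Helper78.MG
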