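import Pool.Agent.Helper78.MG.Defs
import Pool.Agent.Helper78.DT.Av
import Pool.Agent.Helper78.DT.Defs
import Pool.Agent.Helper51.ZP.Main
import Pool.Agent.Helper81.CompC

/-!
# Merlin-Arthur games with restricted last answers: the statements, with proofs in words

`pr`, `av` (probabilities and averages on finite types) are in `DT/Core.lean`, with basic rules in
`DT/Av.lean`.
-/

namespace Pool.Agent.Helper78.MG

open Pool.Agent.Helper81.CC Pool.Agent.Helper51.ZP Pool.Agent.Helper78.DT
open scoped Classical

/-- The number of the sets of at most `D` elements of `{1, ..., k}`. -/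
def bin (k D : ℕ) : ℕ := ∑ i ∈ Finset.range (D + 1), k.choose i

/-- The affine map `y ↦ b + A y` from `F_2^k` to `F_2^m`, with values as strings of bits. -/
def phi {m k : ℕ} (b : Fin m → ZMod 2) (A : Fin m → Fin k → ZMod 2) (y : Fin k → ZMod 2) :
    Fin m → Bool := fun i => decide (b i + ∑ j, A i j * y j = 1)

/-- **HIT.** The image of a random affine map meets a set of density `μ` with probability at least
`λ / (1 + λ)`, `λ = 2 ^ k μ`.

Proof. Let `X(b, A)` be the number of the `y` with `E (phi b A y)`. For every `y`, `phi b A y` is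
uniform (for fixed `A`, `b ↦ b + A y` is a bijection; `ZMod 2 ≃ Bool`), so `E X = 2^k μ = λ`. For
`y ≠ y'` the pair `(phi b A y, phi b A y')` is uniform: let `y j ≠ y' j`; for fixed other columns of
`A`, the map `(b, A · j) ↦ (b + A y, b + A y')` is an (affine) bijection, because the difference of
the two values is the column `A · j` plus something fixed. So
`E X² = ∑_{y, y'} P(E (phi y) ∧ E (phi y')) ≤ λ + λ²`. Cauchy-Schwarz:
`λ² = (E X)² = (E (X [X > 0]))² ≤ E X² P(X > 0) ≤ (λ + λ²) P(X > 0)`. If `λ = 0`, the left side of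
the claim is `0`. -/
def HitStmt : Prop := ∀ (m k : ℕ) (E : (Fin m → Bool) → Prop),
  2 ^ k * pr E / (1 + 2 ^ k * pr E) ≤
    pr fun w : (Fin m → ZMod 2) × (Fin m → Fin k → ZMod 2) => ∃ y, E (phi w.1 w.2 y)

/-- **TRI.** Triangular systems of functions are linearly independent.

Proof. Let `I` be the set of these `i`, with the points `y_i`. If a combination `∑_{i ∈ I} c_i h_i`
is zero and some `c_i ≠ 0`, let `i` be the largest index with `c_i ≠ 0`; evaluate at `y_i`: the
`h_j`, `j < i`, vanish there, so `c_i = 0`, a contradiction. So the `h_i`, `i ∈ I`, are linearly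
independent in a space of dimension `≤ d` (`finrank_span_le_card`, `LinearIndependent`,
`Submodule.finrank_mono`, ...). -/
def TriStmt : Prop := ∀ (Y : Type) (d N : ℕ) (s : Fin d → Y → ZMod 2) (h : Fin N → Y → ZMod 2),
  (∀ i, h i ∈ Submodule.span (ZMod 2) (Set.range s)) →
  (Finset.univ.filter fun i : Fin N => ∃ y, h i y = 1 ∧ ∀ j < i, h j y = 0).card ≤ d

/-- **SPN.** Polynomials of degree `≤ D` composed with an affine map `F_2^k → F_2^m` are
combinations of the squarefree monomials of degree `≤ D` in `k` variables, whose number is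
`bin k D`.

Proof. `Q` is a sum of monomials `c ∏ x_i^{e_i}` with `∑ e_i ≤ D`; after the substitution
`x_i = b_i + ∑_j A_ij y_j` (the value `if phi b A y i then 1 else 0` equals this element of
`ZMod 2`) each is a product of `≤ D` affine forms in `y`. A product of `≤ D` affine forms is a
combination of products of `≤ D` coordinates (induction), and `y_j² = y_j` in `ZMod 2`. The number
of the `T` with `T.card ≤ D`: `Finset.card_powersetCard`, `Finset.sum_card_...` or
`Fintype.card_finset...` by summation over the cardinality. -/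
def SpnStmt : Prop := ∀ (m k D : ℕ) (b : Fin m → ZMod 2) (A : Fin m → Fin k → ZMod 2)
  (Q : MvPolynomial (Fin m) (ZMod 2)), Q.totalDegree ≤ D →
  (fun y : Fin k → ZMod 2 =>
      MvPolynomial.eval (fun i => if phi b A y i then (1 : ZMod 2) else 0) Q) ∈
    Submodule.span (ZMod 2) (Set.range fun (T : {T : Finset (Fin k) // T.card ≤ D})
      (y : Fin k → ZMod 2) => ∏ j ∈ T.1, y j) ∧
  Fintype.card {T : Finset (Fin k) // T.card ≤ D} = bin k D

/-- **DIM.** In the image of an affine map, at most `M * bin k D` sets of a list can be first.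
(May assume `TriStmt`, `SpnStmt`.)

Proof. Let `h_i(y) = ∑_j z_j(phi y) Q_{i,j}(phi y)`, so `phi y ∈ S i ↔ h_i y = 1` and otherwise
`h_i y = 0` (`ZMod 2`). By SPN, `h_i` is in the span of the `M * bin k D` functions
`z_j(phi y) * ∏_{l ∈ T} y_l` (`j < M`, `T.card ≤ D`). Apply TRI. -/
def DimStmt : Prop := ∀ (m M D k N : ℕ) (z : Fin M → (Fin m → Bool) → ZMod 2)
  (S : Fin N → Set (Fin m → Bool)), (∀ i, LowDegree D z (S i)) →
  ∀ (b : Fin m → ZMod 2) (A : Fin m → Fin k → ZMod 2),
    (Finset.univ.filter fun i : Fin N =>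
      ∃ y, phi b A y ∈ S i ∧ ∀ j < i, phi b A y ∉ S j).card ≤ M * bin k D

/-- The set number `i` of the list is the first one which contains `r`. -/
def Fst {m N : ℕ} (S : Fin N → Set (Fin m → Bool)) (i : Fin N) (r : Fin m → Bool) : Prop :=
  r ∈ S i ∧ ∀ j < i, r ∉ S j

/-- **KEY.** The probabilities of being first. (May assume `HitStmt`, `DimStmt`.)

Proof. Average DIM over all `(b, A)`; the average of the cardinality is the sum over `i` of the
probabilities that the image meets the set `{r | Fst S i r}`; HIT for each `i`. -/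
def KeyStmt : Prop := ∀ (m M D k N : ℕ) (z : Fin M → (Fin m → Bool) → ZMod 2)
  (S : Fin N → Set (Fin m → Bool)), (∀ i, LowDegree D z (S i)) →
    ∑ i, 2 ^ k * pr (Fst S i) / (1 + 2 ^ k * pr (Fst S i)) ≤ M * bin k D

/-- **SUB.** Small subcovers. (May assume `KeyStmt`.)

Proof. Let `B = M * bin k D`. Call a list of elements of `F` good if each of its sets has, outside
the union of the earlier ones, probability at least `2 ^ (-k)`. For a good list each summand in KEY
is `λ/(1+λ) ≥ 1/2`, so its length is `≤ 2 B`. Take a good list `l` of maximal length (lengths are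
bounded; `[]` is good). Then every `S ∈ F` has probability `< 2 ^ (-k)` outside the union of `l`.
Now enumerate `F` (a finite set) as `S_1, ..., S_N`. The event in question (outside `l` and in some
`S ∈ F`) is the disjoint union over `i` of the events (outside `l`, and `Fst S i`), each of
probability at most `min (2 ^ (-k)) p_i`, `p_i = pr (Fst S i)`; with `λ = 2 ^ k p_i`,
`min (2^(-k)) p_i = 2^(-k) min 1 λ ≤ 2^(-k) * 2 λ/(1+λ)`. Sum over `i` and KEY. -/
def SubStmt : Prop := ∀ (m M D k : ℕ) (z : Fin M → (Fin m → Bool) → ZMod 2)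
  (F : Set (Set (Fin m → Bool))), (∀ S ∈ F, LowDegree D z S) →
  ∃ l : List (Set (Fin m → Bool)), (∀ S ∈ l, S ∈ F) ∧ l.length ≤ 2 * (M * bin k D) ∧
    pr (fun r => (∃ S ∈ F, r ∈ S) ∧ ∀ S ∈ l, r ∉ S) ≤ 2 * ((M * bin k D : ℕ) : ℝ) / 2 ^ k

/-- The dimension `k`, as a function of the degree and of a bound `X` for the inverse error. -/
def kk (X : ℕ) : ℕ := 3 * (Nat.log 2 X + 1)

/-- **NUM.** Estimates for the numbers.

Proof. `bin k D ≤ 2 ^ k` (`Nat.sum_range_choose`), also for `D > k`. For `D ≤ k` (otherwise use
`bin k D ≤ 2^k ≤ 2^D (3/2)^k`):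
`(3/2)^k = ∑_i (k choose i) 2^(-i) ≥ 2^(-D) bin k D` (`add_pow`), so `bin k D / 2^k ≤ 2^D (3/4)^k`.
For `k = kk X`, `2 ^ (Nat.log 2 X + 1) > X`, so `(3/4)^k = (27/64)^(log X + 1) ≤ (1/2)^(log X + 1) ≤
1/X`. And `2 ^ k = 8 ^ (log X + 1) ≤ (2 X)^3` for `X ≥ 1`. -/
def NumStmt : Prop :=
  (∀ k D : ℕ, bin k D ≤ 2 ^ k ∧ (bin k D : ℝ) / 2 ^ k ≤ 2 ^ D * (3 / 4) ^ k) ∧
  ∀ X : ℕ, 1 ≤ X → ((3 : ℝ) / 4) ^ kk X ≤ 1 / X ∧ 2 ^ kk X ≤ (2 * X) ^ 3

/-- The number of the answers which are sent in advance. -/
def ns (M U D : ℕ) : ℕ := 2 * (M * (2 * (8 * M * U * 2 ^ D)) ^ 3)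

/-- **COV.** Few answers suffice. (May assume `SubStmt`, `NumStmt`.)

Proof. If `M = 0` or `U = 0`: for `M = 0` there is no nonempty `S` with `LowDegree`, so the first
probability is `0` and `Y = []` will do; `U = 0` is excluded. Otherwise let `X = 8 M U 2^D ≥ 1`,
`k = kk X`, and apply SUB to the family `F` of all `S` with `LowDegree D z S` for which there is a
`y` with `y.length ≤ p` and `∀ r' ∈ S, W y r'`; for each `S` in the list choose such a `y`. The
length of the list is `≤ 2 M bin k D ≤ 2 M 2^k ≤ ns M U D`, and the error is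
`2 M bin k D/2^k ≤ 2 M 2^D/X = 1/(4 U)`. -/
def CovStmt : Prop := ∀ (m M D U p : ℕ) (z : Fin M → (Fin m → Bool) → ZMod 2)
  (W : List Bool → (Fin m → Bool) → Prop), 0 < U →
  ∃ Y : List (List Bool), (∀ y ∈ Y, y.length ≤ p) ∧ Y.length ≤ ns M U D ∧
    pr (fun r => ∃ y : List Bool, y.length ≤ p ∧ ∃ S, LowDegree D z S ∧ r ∈ S ∧ ∀ r' ∈ S, W y r') -
      1 / (4 * U) ≤ pr fun r => ∃ y ∈ Y, W y r

/-- **CHB.** Chebyshev's inequality for `N` independent strings.

Proof. Let `μ = pr E` and `X = ∑_j ([E (R j)] - μ)`. `E X = 0` and `E X² = N μ (1 - μ) ≤ N/4`,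
since the cross terms vanish (the coordinates of a uniform element of a product are independent).
Both events imply `|X| ≥ N δ`; Markov for `X²` (`pr_ge_le`). -/
def ChbStmt : Prop := ∀ (q N : ℕ) (E : (Fin q → Bool) → Prop) (τ δ : ℝ), 0 < δ → 0 < N →
  (τ + δ ≤ pr E → pr (fun R : Fin N → Fin q → Bool =>
    ((Finset.univ.filter fun j => E (R j)).card : ℝ) < τ * N) ≤ 1 / (4 * N * δ ^ 2)) ∧
  (pr E ≤ τ - δ → pr (fun R : Fin N → Fin q → Bool =>
    τ * N ≤ ((Finset.univ.filter fun j => E (R j)).card : ℝ)) ≤ 1 / (4 * N * δ ^ 2))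

/-- The block number `j` of length `q` of a string. -/
def blk (q j : ℕ) (l : List Bool) : List Bool := (l.drop (j * q)).take q

/-- **BLK.** The blocks of a uniform string are independent uniform strings.

Proof. The bijection `Fin (N * q) ≃ Fin N × Fin q` (`finProdFinEquiv`, `i = (j, l) ↦ l + q * j`) and
`Function.curry`; `pr_equiv`. The entry `l` of `blk q j (List.ofFn ρ)` is `ρ (j q + l)`
(`List.ext_getElem`, `List.getElem_take`, `List.getElem_drop`, `List.getElem_ofFn`). -/
def BlkStmt : Prop := ∀ (q N : ℕ) (F : (Fin N → List Bool) → Prop),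
  pr (fun ρ : Fin (N * q) → Bool => F fun j => blk q j (List.ofFn ρ)) =
    pr fun R : Fin N → Fin q → Bool => F fun j => List.ofFn (R j)

/-- The number of the samples. -/
def nn (U : ℕ) : ℕ := 6 * U ^ 2 + 1

/-- What Merlin sends: the first message and the list of the answers. -/
def cert (w : List Bool) : List Bool × List (List Bool) := ofData (parse w)

/-- The verifier: `W` is the predicate of the game, `g`, `p`, `m`, `U` its parameters. -/
def ver (W : List Bool × List Bool × List Bool × List Bool → Bool) (g : List Bool → ℕ)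
    (p m U : Polynomial ℕ) (v : List Bool × List Bool × List Bool) : Bool :=
  decide ((cert v.2.1).1.length ≤ p.eval v.1.length) &&
    decide ((8 * g v.1 + 3) * nn (U.eval v.1.length) ≤ 8 * U.eval v.1.length *
      ((List.range (nn (U.eval v.1.length))).filter fun j =>
        (cert v.2.1).2.any fun y => decide (y.length ≤ p.eval v.1.length) &&
          W (v.1, (cert v.2.1).1, y, blk (m.eval v.1.length) j v.2.2)).length)

/-- **PTV.** The verifier runs in polynomial time.

Proof. `PolyTime` calculus (`fun_prop`; `PT_eval` in `Pool.Agent.Helper78.LM` or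
`Pool.Agent.Helper51.ZP` for the polynomials of a length; `polyTime_parse`, `PolyTime.ofData`;
`List.drop`, `List.take`, `List.any`, `filter`, `range` are in the calculus or easy, `drop` by
iterating `tail`). -/
def PtvStmt : Prop := ∀ (W : List Bool × List Bool × List Bool × List Bool → Bool)
  (g : List Bool → ℕ) (p m U : Polynomial ℕ), PolyTime W → PolyTime g →
  PolyTime (ver W g p m U)

/-- **MAI.** The games with low-degree certificates are in `MA`. (May assume `CovStmt`, `ChbStmt`,
`BlkStmt`, `PtvStmt`.)

Proof. The verifier is `ver W g p m U`; the number of the coins is the polynomial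
`(6 U² + 1) * m`. A bound for the length of the message: it is the code
`(toData (u, Y)).enc` of a pair with `u.length ≤ p`, at most `ns M U (c log₂ n + c)` elements of
`Y`, each of length `≤ p`; its length is bounded by a polynomial in `n = |x|`, since
`2 ^ (c log₂ n + c) ≤ (2 n + 2) ^ c` (`sz`, `sz_list_le`, `PBd` in the calculus; `cert` of this code
is `(u, Y)` by `parse_enc` and `ofData_toData`).
Let `n = |x|`, `N = nn U`, `μ = pr` of the event that some `y ∈ Y` of length `≤ p` wins.
`x ∈ L`: `0 < U`, as `(g + 1) 2^m > 0`; `pr_eq_card`; by COV there is a `Y` with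
`μ ≥ (g+1)/U - 1/(4U) = (g + 3/4)/U = τ + δ` with `τ = (8 g + 3)/(8 U)`, `δ = 3/(8 U)`. By CHB and
BLK the verifier rejects with probability at most `1/(4 N δ²) = 16 U²/(9 N) ≤ 1/3`.
`x ∉ L`: if `U = 0`, the verifier never accepts (`0 < (8 g + 3) N`). Otherwise for every message
with `|u| ≤ p` the event that some `y` in the list with `y.length ≤ p` wins has probability
`≤ g/U = τ - δ`, and CHB. -/
def MaiStmt : Prop := ∀ (c : ℕ) (L : Set (List Bool)), LowDegreeGame c L → InMA L

/-- **MAC.** The converse.

Proof. Let `V`, `p`, `m` be as in `InMA`. Take `W (x, u, y, r) = V (x, u, r)`, `g x = 1`, `U = 3`,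
`M = 1`, the same `p` and `m`. For `x ∈ L` take `u` with `2 * 2^m ≤ 3 * count ...`,
`z_0 r = 1` if `V (x, u, r)` and `0` otherwise, `y = []`, `S = {r | V (x, u, r)}`, which is given by
`Q_0 = 1` of total degree `0`. `W` is in `PolyTime`. -/
def MacStmt : Prop := ∀ (c : ℕ) (L : Set (List Bool)), InMA L → LowDegreeGame c L

/-- **TRM.** The set of the coin strings with which Arthur reads given bits is a set of low degree.

Proof. With `v_k = act ... - 2`: the product over `k < a.length` of the polynomials `X_{v_k} + 1 +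
[a_k]` (for `v_k < m`; it has the value `1` iff `r v_k = a_k`), or of the constants `1`, `0` for
`v_k ≥ m`. `MvPolynomial.totalDegree_finset_prod`, `totalDegree_X`, `totalDegree_mul_le`. -/
def TrmStmt : Prop := ∀ (act : List Bool × List Bool × List Bool × List Bool → ℕ)
  (x u y a : List Bool) (m D : ℕ), a.length ≤ D →
  LowDegree D (fun (_ : Fin 1) (_ : Fin m → Bool) => (1 : ZMod 2)) {r | ∀ k, ∀ h : k < a.length,
    a[k] = coin r (act (x, u, y, a.take k) - 2)}

/-- The answers together with the bits read, sent in advance. -/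
def cert2 (w : List Bool) : List Bool × List (List Bool × List Bool) := ofData (parse w)

/-- The term of the literals read by Arthur. -/
def trm (act : List Bool × List Bool × List Bool × List Bool → ℕ) (x u y a : List Bool) :
    List (ℕ × Bool) :=
  (List.range a.length).map fun k => (act (x, u, y, a.take k) - 2, a.getD k false)

/-- The decision list of the answers sent in advance, filled up to the length `|x|` at least by
entries which do not change its value. -/
def dl (act : List Bool × List Bool × List Bool × List Bool → ℕ) (x u : List Bool)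
    (Y : List (List Bool × List Bool)) : DList :=
  (Y.map fun v => (trm act x u v.1 v.2, true)) ++ List.replicate x.length ([], false)

/-- The answer `y` with the bits `a` is acceptable. -/
def okp (act : List Bool × List Bool × List Bool × List Bool → ℕ) (p : ℕ) (x u : List Bool)
    (v : List Bool × List Bool) : Bool :=
  decide (v.1.length ≤ p) && decide (act (x, u, v.1, v.2) = 1) &&
    (List.range v.2.length).all fun k => decide (2 ≤ act (x, u, v.1, v.2.take k))

/-- The deterministic verifier. `f` is a function which counts decision lists with the error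
`1 / (log₂ N + 2) ^ (c + 3)`. -/
def ver2 (act : List Bool × List Bool × List Bool × List Bool → ℕ) (g : List Bool → ℕ)
    (p m : Polynomial ℕ) (f : ℕ × DList → ℕ) (c : ℕ) (v : List Bool × List Bool) : Bool :=
  decide ((cert2 v.2).1.length ≤ p.eval v.1.length) &&
    ((cert2 v.2).2.all fun w => okp act (p.eval v.1.length) v.1 (cert2 v.2).1 w) &&
    decide ((2 * g v.1 + 1) * (Nat.log 2 (dsize (m.eval v.1.length,
        dl act v.1 (cert2 v.2).1 (cert2 v.2).2)) + 2) ^ (c + 3) ≤
      2 * f (m.eval v.1.length, dl act v.1 (cert2 v.2).1 (cert2 v.2).2) *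
        (Nat.log 2 v.1.length + 2) ^ c)

/-- **NPT.** The deterministic verifier runs in polynomial time.

Proof. `PolyTime` calculus, as in PTV; `Nat.log 2` is in `Pool.Agent.Helper3.DT.PTL` (`PtlStmt`) or
`Pool.Agent.Helper61.DT.GAP` (`PT_log`); `dsize` is in `Pool.Agent.Helper58.DT.LST` (`PT_dsize`). -/
def NptStmt : Prop := ∀ (act : List Bool × List Bool × List Bool × List Bool → ℕ)
  (g : List Bool → ℕ) (p m : Polynomial ℕ) (f : ℕ × DList → ℕ) (c : ℕ), PolyTime act →
  PolyTime g → PolyTime f → PolyTime (ver2 act g p m f c)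

/-- **DLV.** The value of the decision list.

Proof. The entries `([], false)` at the end do not change the value (`DList.val` is `false` if no
term is satisfied). An entry of `Y` is satisfied iff all its literals are, that is, iff
`a[k] = coin r (...)` for all `k`. `dsize ≥ |x|` because of the entries at the end. -/
def DlvStmt : Prop := ∀ (act : List Bool × List Bool × List Bool × List Bool → ℕ)
  (x u : List Bool) (Y : List (List Bool × List Bool)) (m : ℕ),
  (∀ r : Fin m → Bool, DList.val r (dl act x u Y) = true ↔ ∃ v ∈ Y, ∀ k, ∀ h : k < v.2.length,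
    v.2[k] = coin r (act (x, u, v.1, v.2.take k) - 2)) ∧
  x.length ≤ dsize (m, dl act x u Y)

/-- **NPI.** The games with few coins are in `NP`. (May assume `CovStmt`, `TrmStmt`, `NptStmt`,
`DlvStmt`, and `∀ c, CountsLists c`.)

Proof. Take `f` for `c + 3`. Let `l = log₂ |x| + 2 ≥ 2`, `l' = log₂ (dsize ...) + 2 ≥ l`, so
`1/l'^(c+3) ≤ 1/(8 l^c)`. The verifier accepts iff `f/l'^(c+3) ≥ (g + 1/2)/l^c` (and the message is
acceptable). `x ∈ L`: apply COV with `M = 1`, `z = 1`, `D = c log₂ |x| + c`, `U = l ^ c`, and for
the answers the codes of pairs `(y, a)`: `W w r` says that `w` is the code of a pair `(y, a)` (for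
example `pairEnc y a`) with `okp ...` and that all the bits read agree with `r`; a bound for the
length of the codes is `2 p + 1 + D`. The sets `S` are those of TRM. So there is a list `Y` of
polynomial length (`2 ^ D ≤ (2 |x| + 2)^c`, `l^c` polynomial) such that the value of the decision
list is `true` with probability `≥ (g+1)/l^c - 1/(4 l^c)`, and
`f/l'^(c+3) ≥ (g + 3/4 - 1/8)/l^c`. `x ∉ L`: every acceptable message gives a decision list whose
value is `true` only if Merlin can win, so the probability is `≤ g/l^c`, and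
`f/l'^(c+3) ≤ (g + 1/8)/l^c < (g + 1/2)/l^c`. The code of the message has polynomial length
(`Problem.inNP_of_cert`, or directly). -/
def NpiStmt : Prop := ∀ (c : ℕ) (L : Set (List Bool)), FewCoinsGame c L → InNP L

/-- **NPC.** The converse.

Proof. Let `V`, `p` be as in `InNP`. `act (x, u, y, a) = 1` if `V (x, u) = true` and `0` otherwise;
no coins are read. `g = 0`, `m = 0`. For `x ∈ L` there is a `u` with `V (x, u) = true`, Merlin wins
with all coin strings, and `1 ≤ (log₂ |x| + 2) ^ c`; for `x ∉ L` he never wins. -/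
def NpcStmt : Prop := ∀ (c : ℕ) (L : Set (List Bool)), InNP L → FewCoinsGame c L

end Pool.Agent.Helper78.MG
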